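import Mathlib

/-!
# Every large cube is a sum of five positive cubes

The identity
`m³ = (m - 24 b)³ + (12 b + d)³ + (12 b - d)³ + (15 b + e)³ + (15 b - e)³`
holds as soon as `4 m² - 96 m b + 201 b² = 4 d² + 5 e²`. This quaternary quadratic form is isotropic
of square discriminant, and its zeros are parametrised by the integers `g, D, p, k` below; with
`α = D + 14 p + 29 k` and `β = - 5 g - 5 p + 4 k` one has `m = α D - β g`. For a given large `m` we
take `g = 201` and choose `α, D` in suitable residue classes modulo `201 ^ 2` so that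
`m = α D - 201 β` with `α : D : β` close to `2 : 1 : 151 / 201`; then all five bases are positive.
-/

set_option autoImplicit false

namespace Pool.Agent.Results.MP_3e5b54_nt.CubesFiveCubes

/-- The five-cube identity. -/
theorem cube_identity {m b d e : ℤ}
    (h : 4 * m ^ 2 - 96 * m * b + 201 * b ^ 2 = 4 * d ^ 2 + 5 * e ^ 2) :
    m ^ 3 = (m - 24 * b) ^ 3 + (12 * b + d) ^ 3 + (12 * b - d) ^ 3 + (15 * b + e) ^ 3 +
      (15 * b - e) ^ 3 := by
  linear_combination (18 * b) * h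

theorem mul_bd {u v u0 u1 v0 v1 : ℝ} (hu0 : u0 ≤ u) (hu1 : u ≤ u1) (hv0 : v0 ≤ v) (hv1 : v ≤ v1)
    (h0 : 0 ≤ u0) (h0' : 0 ≤ v0) : u0 * v0 ≤ u * v ∧ u * v ≤ u1 * v1 := by
  constructor
  · exact mul_le_mul hu0 hv0 h0' (h0.trans hu0)
  · exact mul_le_mul hu1 hv1 (h0'.trans hv0) ((h0.trans hu0).trans hu1)

/-- the real inequalities -/
theorem real_ineq {a c f g : ℝ} (ha0 : 1.999 ≤ a) (ha1 : a ≤ 2.004) (hc0 : 0.999 ≤ c) (hc1 : c ≤ 1)
    (hf0 : 0.7512 ≤ f) (hf1 : f ≤ 0.7523) (hg0 : 0 ≤ g) (hg1 : g ≤ 0.001) :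
    let M := a * c - f * g
    let X := a * a + a * g + 19 * (g * g)
    let Y := 2 * (a * f) + a * c + f * g + 38 * (g * c)
    let Z := f * f + f * c + 19 * (c * c)
    let b := 48 * M - 10 * X - 2 * Z
    let e := 2 * Z - 10 * X - 28 * Y
    let d := 201 * Y + 7 * e
    0 < b ∧ 24 * b < 201 * M ∧ -(12 * b) < d ∧ d < 12 * b ∧ -(15 * b) < e ∧ e < 15 * b := by
  intro M X Y Z b e d
  have h1 := mul_bd ha0 ha1 ha0 ha1 (by norm_num) (by norm_num)
  have h2 := mul_bd ha0 ha1 hg0 hg1 (by norm_num) (by norm_num)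
  have h3 := mul_bd hg0 hg1 hg0 hg1 (by norm_num) (by norm_num)
  have h4 := mul_bd ha0 ha1 hf0 hf1 (by norm_num) (by norm_num)
  have h5 := mul_bd ha0 ha1 hc0 hc1 (by norm_num) (by norm_num)
  have h6 := mul_bd hf0 hf1 hg0 hg1 (by norm_num) (by norm_num)
  have h7 := mul_bd hg0 hg1 hc0 hc1 (by norm_num) (by norm_num)
  have h8 := mul_bd hf0 hf1 hf0 hf1 (by norm_num) (by norm_num)
  have h9 := mul_bd hf0 hf1 hc0 hc1 (by norm_num) (by norm_num)
  have h10 := mul_bd hc0 hc1 hc0 hc1 (by norm_num) (by norm_num)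
  norm_num at h1 h2 h3 h4 h5 h6 h7 h8 h9 h10
  obtain ⟨h1a, h1b⟩ := h1
  obtain ⟨h2a, h2b⟩ := h2
  obtain ⟨h3a, h3b⟩ := h3
  obtain ⟨h4a, h4b⟩ := h4
  obtain ⟨h5a, h5b⟩ := h5
  obtain ⟨h6a, h6b⟩ := h6
  obtain ⟨h7a, h7b⟩ := h7
  obtain ⟨h8a, h8b⟩ := h8
  obtain ⟨h9a, h9b⟩ := h9
  obtain ⟨h10a, h10b⟩ := h10
  refine ⟨?_, ?_, ?_, ?_, ?_, ?_⟩ <;> simp only [M, X, Y, Z, b, e, d] <;> linarith

/-- A suitable representation `m = α δ - 201 β` gives the five cubes. -/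
theorem of_params {m α β δ k : ℤ} (hm : α * δ - 201 * β = m)
    (hk : 5 * (α - δ) + 14 * (β + 1005) = 201 * k) {S : ℝ} (hS : 0 < S)
    (ha0 : 1.999 * S ≤ α) (ha1 : (α : ℝ) ≤ 2.004 * S) (hc0 : 0.999 * S ≤ δ) (hc1 : (δ : ℝ) ≤ S)
    (hf0 : 0.7512 * S ≤ β) (hf1 : (β : ℝ) ≤ 0.7523 * S) (hg1 : 201 ≤ 0.001 * S) :
    ∃ x₁ x₂ x₃ x₄ x₅ : ℤ, 0 < x₁ ∧ 0 < x₂ ∧ 0 < x₃ ∧ 0 < x₄ ∧ 0 < x₅ ∧
      m ^ 3 = x₁ ^ 3 + x₂ ^ 3 + x₃ ^ 3 + x₄ ^ 3 + x₅ ^ 3 := by
  set p : ℤ := 41 * k - (α - δ) - 3 * (β + 1005) with hp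
  have hα : α = δ + 14 * p + 29 * k := by
    rw [hp]
    linarith
  have hβ : β = -5 * 201 - 5 * p + 4 * k := by
    rw [hp]
    linarith
  set b : ℤ := -2 * 201 * k + 2 * δ * p + 4 * δ * k - 10 * p ^ 2 - 40 * p * k - 42 * k ^ 2 with hb
  set e : ℤ := -4 * 201 * δ + 20 * 201 * p + 38 * 201 * k - 2 * δ * p - 8 * δ * k + 10 * p ^ 2
    - 16 * p * k - 74 * k ^ 2 with he
  set d : ℤ := -5 * 201 ^ 2 - 5 * 201 * p - 20 * 201 * k + δ ^ 2 - 10 * δ * p - 19 * δ * k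
    - 70 * p ^ 2 - 290 * p * k - 286 * k ^ 2 with hd
  have hm' : m = 5 * 201 ^ 2 + 5 * 201 * p - 4 * 201 * k + δ ^ 2 + 14 * δ * p + 29 * δ * k := by
    rw [← hm, hα, hβ]
    ring
  have hid : 4 * m ^ 2 - 96 * m * b + 201 * b ^ 2 = 4 * d ^ 2 + 5 * e ^ 2 := by
    rw [hm', hb, hd, he]
    ring
  have hb2 : 201 * b = 48 * m - 10 * (α ^ 2 + α * 201 + 19 * 201 ^ 2) -
      2 * (β ^ 2 + β * δ + 19 * δ ^ 2) := by
    rw [← hm, hα, hβ, hb]
    ring
  have he2 : 201 * e = 2 * (β ^ 2 + β * δ + 19 * δ ^ 2) - 10 * (α ^ 2 + α * 201 + 19 * 201 ^ 2) -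
      28 * (2 * α * β + α * δ + β * 201 + 38 * 201 * δ) := by
    rw [hα, hβ, he]
    ring
  have hd2 : d = (2 * α * β + α * δ + β * 201 + 38 * 201 * δ) + 7 * e := by
    rw [hα, hβ, he, hd]
    ring
  have hS2 : 0 < S * S := mul_pos hS hS
  have key := real_ineq (a := α / S) (c := δ / S) (f := β / S) (g := 201 / S)
    (by rw [le_div_iff₀ hS]; exact ha0) (by rw [div_le_iff₀ hS]; exact ha1)
    (by rw [le_div_iff₀ hS]; exact hc0) (by rw [div_le_iff₀ hS, one_mul]; exact hc1)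
    (by rw [le_div_iff₀ hS]; exact hf0) (by rw [div_le_iff₀ hS]; exact hf1)
    (by positivity) (by rw [div_le_iff₀ hS]; exact hg1)
  simp only at key
  have eM : (α / S * (δ / S) - β / S * (201 / S) : ℝ) = m / (S * S) := by
    rw [← hm]
    push_cast
    field_simp
  have eX : (α / S * (α / S) + α / S * (201 / S) + 19 * (201 / S * (201 / S)) : ℝ) =
      (α ^ 2 + α * 201 + 19 * 201 ^ 2) / (S * S) := by
    field_simp
  have eY : (2 * (α / S * (β / S)) + α / S * (δ / S) + β / S * (201 / S) +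
      38 * (201 / S * (δ / S)) : ℝ) =
      (2 * α * β + α * δ + β * 201 + 38 * 201 * δ) / (S * S) := by
    field_simp
  have eZ : (β / S * (β / S) + β / S * (δ / S) + 19 * (δ / S * (δ / S)) : ℝ) =
      (β ^ 2 + β * δ + 19 * δ ^ 2) / (S * S) := by
    field_simp
  rw [eM, eX, eY, eZ] at key
  have hbR : (201 : ℝ) * b = 48 * m - 10 * (α ^ 2 + α * 201 + 19 * 201 ^ 2) -
      2 * (β ^ 2 + β * δ + 19 * δ ^ 2) := by exact_mod_cast hb2
  have heR : (201 : ℝ) * e = 2 * (β ^ 2 + β * δ + 19 * δ ^ 2) -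
      10 * (α ^ 2 + α * 201 + 19 * 201 ^ 2) -
      28 * (2 * α * β + α * δ + β * 201 + 38 * 201 * δ) := by exact_mod_cast he2
  have hdR : (d : ℝ) = (2 * α * β + α * δ + β * 201 + 38 * 201 * δ) + 7 * e := by
    exact_mod_cast hd2
  have eb : (48 * (m / (S * S)) - 10 * ((α ^ 2 + α * 201 + 19 * 201 ^ 2) / (S * S)) -
      2 * ((β ^ 2 + β * δ + 19 * δ ^ 2) / (S * S)) : ℝ) = 201 * b / (S * S) := by
    rw [hbR]
    ring
  have ee : (2 * ((β ^ 2 + β * δ + 19 * δ ^ 2) / (S * S)) -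
      10 * ((α ^ 2 + α * 201 + 19 * 201 ^ 2) / (S * S)) -
      28 * ((2 * α * β + α * δ + β * 201 + 38 * 201 * δ) / (S * S)) : ℝ) = 201 * e / (S * S) := by
    rw [heR]
    ring
  have ed : (201 * ((2 * α * β + α * δ + β * 201 + 38 * 201 * δ) / (S * S)) +
      7 * (201 * e / (S * S)) : ℝ) = 201 * d / (S * S) := by
    rw [hdR]
    ring
  rw [eb, ee, ed] at key
  obtain ⟨k1, k2, k3, k4, k5, k6⟩ := key
  have c1 : (0 : ℝ) < b := by
    have := mul_pos k1 hS2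
    rw [div_mul_cancel₀ _ hS2.ne'] at this
    linarith
  have c2 : (24 : ℝ) * b < m := by
    have h2 := mul_lt_mul_of_pos_right k2 hS2
    have e1 : 24 * (201 * (b : ℝ) / (S * S)) * (S * S) = 201 * (24 * b) := by field_simp
    have e2 : 201 * ((m : ℝ) / (S * S)) * (S * S) = 201 * m := by field_simp
    rw [e1, e2] at h2
    linarith
  have c3 : -((12 : ℝ) * b) < d := by
    have h2 := mul_lt_mul_of_pos_right k3 hS2
    have e1 : -(12 * (201 * (b : ℝ) / (S * S))) * (S * S) = 201 * (-(12 * b)) := by field_simp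
    have e2 : 201 * (d : ℝ) / (S * S) * (S * S) = 201 * d := by field_simp
    rw [e1, e2] at h2
    linarith
  have c4 : (d : ℝ) < 12 * b := by
    have h2 := mul_lt_mul_of_pos_right k4 hS2
    have e1 : (12 * (201 * (b : ℝ) / (S * S))) * (S * S) = 201 * (12 * b) := by field_simp
    have e2 : 201 * (d : ℝ) / (S * S) * (S * S) = 201 * d := by field_simp
    rw [e1, e2] at h2
    linarith
  have c5 : -((15 : ℝ) * b) < e := by
    have h2 := mul_lt_mul_of_pos_right k5 hS2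
    have e1 : -(15 * (201 * (b : ℝ) / (S * S))) * (S * S) = 201 * (-(15 * b)) := by field_simp
    have e2 : 201 * (e : ℝ) / (S * S) * (S * S) = 201 * e := by field_simp
    rw [e1, e2] at h2
    linarith
  have c6 : (e : ℝ) < 15 * b := by
    have h2 := mul_lt_mul_of_pos_right k6 hS2
    have e1 : (15 * (201 * (b : ℝ) / (S * S))) * (S * S) = 201 * (15 * b) := by field_simp
    have e2 : 201 * (e : ℝ) / (S * S) * (S * S) = 201 * e := by field_simp
    rw [e1, e2] at h2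
    linarith
  have d2 : 24 * b < m := by exact_mod_cast c2
  have d3 : -(12 * b) < d := by exact_mod_cast c3
  have d4 : d < 12 * b := by exact_mod_cast c4
  have d5 : -(15 * b) < e := by exact_mod_cast c5
  have d6 : e < 15 * b := by exact_mod_cast c6
  exact ⟨m - 24 * b, 12 * b + d, 12 * b - d, 15 * b + e, 15 * b - e, by linarith, by linarith,
    by linarith, by linarith, by linarith, cube_identity hid⟩

theorem exists_sqrt {A D : ℤ} (hA : 0 < A) (hD : 0 ≤ D) :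
    ∃ t : ℕ, A * (t : ℤ) ^ 2 ≤ D ∧ D < A * ((t : ℤ) + 1) ^ 2 := by
  obtain ⟨A, rfl⟩ := Int.eq_ofNat_of_zero_le hA.le
  obtain ⟨D, rfl⟩ := Int.eq_ofNat_of_zero_le hD
  have hA' : 0 < A := by exact_mod_cast hA
  refine ⟨Nat.sqrt (D / A), ?_, ?_⟩
  · have h1 : Nat.sqrt (D / A) ^ 2 ≤ D / A := Nat.sqrt_le' _
    have h2 : A * (D / A) ≤ D := Nat.mul_div_le _ _
    have h3 : A * Nat.sqrt (D / A) ^ 2 ≤ D := (Nat.mul_le_mul_left A h1).trans h2
    exact_mod_cast h3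
  · have h1 : D / A < (Nat.sqrt (D / A) + 1) ^ 2 := Nat.lt_succ_sqrt' _
    have h2 : D < A * (D / A + 1) := by
      have := Nat.lt_mul_div_succ D hA'
      exact this
    have h3 : D < A * (Nat.sqrt (D / A) + 1) ^ 2 := h2.trans_le (Nat.mul_le_mul_left A h1)
    exact_mod_cast h3

/-- the residue class of `w` and the size of `F (v + 1) - F v` -/
theorem exists_v {P : ℤ} (hP0 : 80802000 ≤ P) {m : ℤ}
    (hm : P * 40401001 - 151 * 40401001 < m) :
    ∃ v : ℕ, P * 40401001 * (1 + 40401 * (v : ℤ)) ^ 2 - 151 * 40401001 * (1 + 40401 * (v : ℤ)) < m ∧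
      m ≤ P * 40401001 * (1 + 40401 * ((v : ℤ) + 1)) ^ 2 -
        151 * 40401001 * (1 + 40401 * ((v : ℤ) + 1)) := by
  set F : ℕ → ℤ := fun v => P * 40401001 * (1 + 40401 * (v : ℤ)) ^ 2 -
    151 * 40401001 * (1 + 40401 * (v : ℤ)) with hF
  have hex : ∃ v, m ≤ F v := by
    refine ⟨m.toNat, ?_⟩
    have h1 : m ≤ (m.toNat : ℤ) := Int.self_le_toNat m
    have h0 : (0 : ℤ) ≤ (m.toNat : ℤ) := Int.natCast_nonneg _
    show m ≤ P * 40401001 * (1 + 40401 * ((m.toNat : ℕ) : ℤ)) ^ 2 -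
      151 * 40401001 * (1 + 40401 * ((m.toNat : ℕ) : ℤ))
    generalize ((m.toNat : ℕ) : ℤ) = x at h1 h0
    have h2 : 151 * 40401001 * (1 + 40401 * x) ≤ 151 * 40401001 * (1 + 40401 * x) ^ 2 := by
      nlinarith
    have h3 : 152 * 40401001 * (1 + 40401 * x) ^ 2 ≤ P * 40401001 * (1 + 40401 * x) ^ 2 := by
      have : 0 ≤ (1 + 40401 * x) ^ 2 := sq_nonneg _
      nlinarith
    nlinarith
  classical
  have hspec := Nat.find_spec hex
  have hne : Nat.find hex ≠ 0 := by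
    intro h0
    rw [h0] at hspec
    simp only [hF, Nat.cast_zero] at hspec
    linarith
  obtain ⟨v, hv⟩ := Nat.exists_eq_succ_of_ne_zero hne
  have hlt : ¬ m ≤ F v := Nat.find_min hex (by omega)
  rw [hv] at hspec
  refine ⟨v, lt_of_not_ge hlt, ?_⟩
  have : F (Nat.succ v) = P * 40401001 * (1 + 40401 * ((v : ℤ) + 1)) ^ 2 -
        151 * 40401001 * (1 + 40401 * ((v : ℤ) + 1)) := by
    simp only [hF, Nat.succ_eq_add_one]
    push_cast
    ring
  rw [← this]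
  exact hspec

theorem main_int {m : ℤ} (hm : 10 ^ 100 ≤ m) :
    ∃ x₁ x₂ x₃ x₄ x₅ : ℤ, 0 < x₁ ∧ 0 < x₂ ∧ 0 < x₃ ∧ 0 < x₄ ∧ 0 < x₅ ∧
      m ^ 3 = x₁ ^ 3 + x₂ ^ 3 + x₃ ^ 3 + x₄ ^ 3 + x₅ ^ 3 := by
  set R : ℤ := (2815 * m - 2814) % 40401 with hR
  have hR0 : 0 ≤ R := Int.emod_nonneg _ (by norm_num)
  have hR1 : R < 40401 := Int.emod_lt_of_pos _ (by norm_num)
  have hRm : R ≡ 2815 * m - 2814 [ZMOD 40401] := Int.mod_modEq _ _
  set P : ℤ := R + 80802000 with hP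
  have hP0 : 80802000 ≤ P := by linarith
  have hP1 : P ≤ 80842400 := by linarith
  have hPm : P ≡ 2815 * m - 2814 [ZMOD 40401] := by
    have h1 : P ≡ R [ZMOD 40401] := by
      rw [hP, Int.modEq_iff_dvd]
      exact ⟨-2000, by ring⟩
    exact h1.trans hRm
  obtain ⟨v, hv1, hv2⟩ := exists_v hP0 (m := m) (by linarith)
  set w : ℤ := 1 + 40401 * ((v : ℤ) + 1) with hw
  have hv0 : (0 : ℤ) ≤ v := Int.natCast_nonneg _
  have hwm : w ≡ 1 [ZMOD 40401] := by
    rw [hw, Int.modEq_iff_dvd]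
    exact ⟨-((v : ℤ) + 1), by ring⟩
  -- `w` is large
  have hwL : 10 ^ 42 ≤ w := by
    by_contra hcon
    push Not at hcon
    have h1 : w ^ 2 ≤ (10 ^ 42) ^ 2 := pow_le_pow_left₀ (by linarith) hcon.le 2
    have h2 : P * 40401001 * w ^ 2 ≤ 80842400 * 40401001 * (10 ^ 42) ^ 2 := by
      have : P * 40401001 ≤ 80842400 * 40401001 := by linarith
      exact mul_le_mul this h1 (sq_nonneg _) (by norm_num)
    have h3 : m ≤ P * 40401001 * w ^ 2 := by linarith
    norm_num at h2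
    linarith
  set D : ℤ := P * 40401001 * w ^ 2 - 151 * 40401001 * w - m with hD
  have hD0 : 0 ≤ D := by linarith
  have hD1 : D < 2 * (P * 40401001 * 40401) * w := by
    have e1 : 1 + 40401 * (v : ℤ) = w - 40401 := by rw [hw]; ring
    rw [e1] at hv1
    have : D < P * 40401001 * w ^ 2 - 151 * 40401001 * w -
        (P * 40401001 * (w - 40401) ^ 2 - 151 * 40401001 * (w - 40401)) := by linarith
    have e2 : P * 40401001 * w ^ 2 - 151 * 40401001 * w -
        (P * 40401001 * (w - 40401) ^ 2 - 151 * 40401001 * (w - 40401)) =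
        2 * (P * 40401001 * 40401) * w - P * 40401001 * 40401 ^ 2 - 151 * 40401001 * 40401 := by ring
    rw [e2] at this
    linarith
  have hA : 0 < P * 40401001 * 40401 ^ 2 := by linarith
  obtain ⟨t, ht1, ht2⟩ := exists_sqrt hA hD0
  have ht0 : (0 : ℤ) ≤ t := Int.natCast_nonneg _
  generalize (t : ℤ) = t at ht0 ht1 ht2
  -- `t` is small
  have htw : t ^ 2 ≤ w := by
    by_contra hcon
    push Not at hcon
    have h1 : P * 40401001 * 40401 ^ 2 * w < P * 40401001 * 40401 ^ 2 * t ^ 2 :=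
      mul_lt_mul_of_pos_left hcon hA
    have h2 : 2 * (P * 40401001 * 40401) * w ≤ P * 40401001 * 40401 ^ 2 * w := by
      have : 0 ≤ w := by linarith
      nlinarith
    linarith
  have htS : 10 ^ 21 * t ≤ w := by
    have h1 : (10 ^ 21 * t) ^ 2 ≤ w ^ 2 := by
      have h2 : (10 ^ 21 * t) ^ 2 = 10 ^ 42 * t ^ 2 := by ring
      rw [h2]
      have h3 : 10 ^ 42 * t ^ 2 ≤ 10 ^ 42 * w := by linarith
      nlinarith
    exact abs_le_of_sq_le_sq' h1 (by linarith) |>.2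
  -- the parameters
  have hp1 : w + 40401 * t ≡ 1 [ZMOD 40401] := by
    have h1 : w + 40401 * t ≡ w [ZMOD 40401] := by
      rw [Int.modEq_iff_dvd]
      exact ⟨-t, by ring⟩
    exact h1.trans hwm
  have hp2 : w - 40401 * t ≡ 1 [ZMOD 40401] := by
    have h1 : w - 40401 * t ≡ w [ZMOD 40401] := by
      rw [Int.modEq_iff_dvd]
      exact ⟨t, by ring⟩
    exact h1.trans hwm
  have hα1 : P * (w + 40401 * t) ≡ 2815 * m - 2814 [ZMOD 40401] := by
    have := hPm.mul hp1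
    rwa [mul_one] at this
  have hδ1 : 40401001 * (w - 40401 * t) ≡ 1 [ZMOD 40401] := by
    have h1 : (40401001 : ℤ) ≡ 1 [ZMOD 40401] := by decide
    have := h1.mul hp2
    rwa [mul_one] at this
  have hαδ1 : P * (w + 40401 * t) * (40401001 * (w - 40401 * t)) ≡ 2815 * m - 2814 [ZMOD 40401] := by
    have := hα1.mul hδ1
    rwa [mul_one] at this
  have hprod : P * (w + 40401 * t) * (40401001 * (w - 40401 * t)) - m =
      D + 151 * 40401001 * w - P * 40401001 * 40401 ^ 2 * t ^ 2 := by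
    rw [hD]
    ring
  have hPt : P * t ≤ 80842400 * t := mul_le_mul_of_nonneg_right hP1 ht0
  have hPt0 : 80802000 * t ≤ P * t := mul_le_mul_of_nonneg_right hP0 ht0
  have hw0 : 0 ≤ w := by linarith
  have hPw : P * w ≤ 80842400 * w := mul_le_mul_of_nonneg_right hP1 hw0
  have hPw0 : 80802000 * w ≤ P * w := mul_le_mul_of_nonneg_right hP0 hw0
  set α : ℤ := P * (w + 40401 * t) with hα
  set δ : ℤ := 40401001 * (w - 40401 * t) with hδ
  obtain ⟨j, hj⟩ := hαδ1.dvd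
  obtain ⟨j₁, hj₁⟩ := hα1.dvd
  obtain ⟨j₂, hj₂⟩ := hδ1.dvd
  set β : ℤ := 14 * (m - 1) - 201 * j with hβ
  have hm1 : α * δ - 201 * β = m := by
    rw [hβ]
    linarith
  have hk : 5 * (α - δ) + 14 * (β + 1005) =
      201 * ((m - 1) + 5 * (14 * (m - 1) - 201 * j₁) + 5 * (201 * j₂) - 14 * j + 70) := by
    rw [hβ]
    linarith
  have h201β : 201 * β = D + 151 * 40401001 * w - P * 40401001 * 40401 ^ 2 * t ^ 2 := by
    linarith
  have b1 : 1999 * (40401001 * w) ≤ 1000 * α := by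
    rw [hα]
    linarith
  have b2 : 1000 * α ≤ 2004 * (40401001 * w) := by
    rw [hα]
    linarith
  have b3 : 999 * (40401001 * w) ≤ 1000 * δ := by
    rw [hδ]
    linarith
  have b4 : δ ≤ 40401001 * w := by
    rw [hδ]
    linarith
  have b5 : 7512 * (40401001 * w) ≤ 10000 * β := by
    linarith
  have b6 : 10000 * β ≤ 7523 * (40401001 * w) := by
    have e1 : P * 40401001 * 40401 ^ 2 * (t + 1) ^ 2 =
        P * 40401001 * 40401 ^ 2 * t ^ 2 + 40401001 * 40401 ^ 2 * (2 * (P * t) + P) := by ring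
    rw [e1] at ht2
    have h1 : 10 ^ 21 * (2 * (P * t) + P) ≤ 80842400 * (3 * w) := by linarith
    linarith
  have b7 : 201000 ≤ 40401001 * w := by linarith
  have c1 : (1999 : ℝ) * (40401001 * w) ≤ 1000 * α := by exact_mod_cast b1
  have c2 : (1000 : ℝ) * α ≤ 2004 * (40401001 * w) := by exact_mod_cast b2
  have c3 : (999 : ℝ) * (40401001 * w) ≤ 1000 * δ := by exact_mod_cast b3
  have c4 : (δ : ℝ) ≤ 40401001 * w := by exact_mod_cast b4
  have c5 : (7512 : ℝ) * (40401001 * w) ≤ 10000 * β := by exact_mod_cast b5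
  have c6 : (10000 : ℝ) * β ≤ 7523 * (40401001 * w) := by exact_mod_cast b6
  have c7 : (201000 : ℝ) ≤ 40401001 * w := by exact_mod_cast b7
  exact of_params hm1 hk (S := 40401001 * w) (by linarith) (by linarith) (by linarith) (by linarith)
    c4 (by linarith) (by linarith) (by linarith)

/-- The cube of every integer `m ≥ 10 ^ 100` is a sum of five positive cubes. -/
theorem result : ∀ m : ℕ, 10 ^ 100 ≤ m → ∃ a b c d e : ℕ, 0 < a ∧ 0 < b ∧ 0 < c ∧ 0 < d ∧ 0 < e ∧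
    m ^ 3 = a ^ 3 + b ^ 3 + c ^ 3 + d ^ 3 + e ^ 3 := by
  intro m hm
  have hm' : (10 : ℤ) ^ 100 ≤ m := by exact_mod_cast hm
  obtain ⟨a, b, c, d, e, ha, hb, hc, hd, he, h⟩ := main_int hm'
  lift a to ℕ using ha.le
  lift b to ℕ using hb.le
  lift c to ℕ using hc.le
  lift d to ℕ using hd.le
  lift e to ℕ using he.le
  exact ⟨a, b, c, d, e, by exact_mod_cast ha, by exact_mod_cast hb, by exact_mod_cast hc,
    by exact_mod_cast hd, by exact_mod_cast he, by exact_mod_cast h⟩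

end Pool.Agent.Results.MP_3e5b54_nt.CubesFiveCubes
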